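import Mathlib

set_option autoImplicit false

/-!
Definitions for the problem on hereditarily metalindelof compacta and alpha-realcompactness.
-/

namespace Pool.Agent.Lib.MP_8c874d_gt

open Set Cardinal

/-- Every open cover has a point-countable open refinement (which is again a cover). -/
def MetaLindelof (Y : Type) [TopologicalSpace Y] : Prop :=
  ∀ 𝒰 : Set (Set Y), (∀ U ∈ 𝒰, IsOpen U) → ⋃₀ 𝒰 = Set.univ →
    ∃ 𝒱 : Set (Set Y), (∀ V ∈ 𝒱, IsOpen V) ∧ ⋃₀ 𝒱 = Set.univ ∧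
      (∀ V ∈ 𝒱, ∃ U ∈ 𝒰, V ⊆ U) ∧ ∀ y : Y, {V ∈ 𝒱 | y ∈ V}.Countable

/-- Every subspace is metalindelof. -/
def HereditarilyMetaLindelof (X : Type) [TopologicalSpace X] : Prop :=
  ∀ Y : Set X, MetaLindelof Y

/-- Uncountable, and some set of this cardinality carries a nonprincipal ultrafilter which is
closed under intersections of fewer than `κ` members. -/
def IsMeasurableCardinal (κ : Cardinal.{0}) : Prop :=
  ℵ₀ < κ ∧ ∃ S : Type, #S = κ ∧ ∃ 𝒱 : Ultrafilter S, (∀ x : S, ({x} : Set S) ∉ 𝒱) ∧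
    ∀ 𝒜 : Set (Set S), #𝒜 < κ → (∀ A ∈ 𝒜, A ∈ 𝒱) → ⋂₀ 𝒜 ∈ 𝒱

/-- Condition (H): hereditarily metalindelof, and no discrete subspace has measurable
cardinality. -/
def ConditionH (X : Type) [TopologicalSpace X] : Prop :=
  HereditarilyMetaLindelof X ∧ ∀ D : Set X, DiscreteTopology D → ¬ IsMeasurableCardinal #D

/-- Every finite subfamily has nonempty intersection. -/
def Centered {Y : Type} (𝓕 : Set (Set Y)) : Prop :=
  ∀ 𝓢 : Set (Set Y), 𝓢 ⊆ 𝓕 → 𝓢.Finite → (⋂₀ 𝓢).Nonempty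

/-- Every countable subfamily has nonempty intersection. -/
def CIP {Y : Type} (𝓕 : Set (Set Y)) : Prop :=
  ∀ 𝓢 : Set (Set Y), 𝓢 ⊆ 𝓕 → 𝓢.Countable → (⋂₀ 𝓢).Nonempty

/-- A maximal centered family of closed sets. -/
def IsMaximalCentered {Y : Type} [TopologicalSpace Y] (𝓕 : Set (Set Y)) : Prop :=
  (∀ K ∈ 𝓕, IsClosed K) ∧ Centered 𝓕 ∧
    ∀ 𝓖 : Set (Set Y), (∀ K ∈ 𝓖, IsClosed K) → Centered 𝓖 → 𝓕 ⊆ 𝓖 → 𝓖 ⊆ 𝓕

/-- Every maximal centered family of closed sets with the countable intersection property has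
nonempty intersection. -/
def AlphaRealcompact (Y : Type) [TopologicalSpace Y] : Prop :=
  ∀ 𝓕 : Set (Set Y), IsMaximalCentered 𝓕 → CIP 𝓕 → (⋂₀ 𝓕).Nonempty

/-- Every subspace is alpha-realcompact. -/
def HereditarilyAlphaRealcompact (X : Type) [TopologicalSpace X] : Prop :=
  ∀ Y : Set X, AlphaRealcompact Y

end Pool.Agent.Lib.MP_8c874d_gt
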