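import Pool.Agent.Lib.MP_8c874d_gt.Defs

section
set_option autoImplicit false

/-!
Small sets, acceptance ranks and the insertion lemma.
-/

namespace Pool.Agent.Lib.MP_8c874d_gt

open Set

/-- Index set: level `k` is `W × (ℕ → D k)`. -/
abbrev Vt (W : Type) (D : ℕ → Type) : Type := Σ k : ℕ, W × (ℕ → D k)

section

variable {W : Type} {D : ℕ → Type}

def proj (v : Vt W D) : ℕ × W := (v.1, v.2.1)

def SmallAt (k : ℕ) (A : Set (Vt W D)) : Prop :=
  ∃ (C : Set W) (Q : Set (D k)), C.Countable ∧ Q.Countable ∧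
    ∀ (a : W) (q : ℕ → D k), (⟨k, (a, q)⟩ : Vt W D) ∈ A → a ∈ C ∨ ¬ (Q ⊆ range q)

def Pos (A : Set (Vt W D)) : Prop := ∃ k, ¬ SmallAt k A

theorem SmallAt.mono {k : ℕ} {A B : Set (Vt W D)} (h : A ⊆ B) (hB : SmallAt k B) :
    SmallAt k A := by
  obtain ⟨C, Q, hC, hQ, hh⟩ := hB
  exact ⟨C, Q, hC, hQ, fun a q ha => hh a q (h ha)⟩

theorem SmallAt.iUnion {ι : Type} [Countable ι] {k : ℕ} {A : ι → Set (Vt W D)}
    (h : ∀ i, SmallAt k (A i)) : SmallAt k (⋃ i, A i) := by
  choose C Q hC hQ hh using h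
  refine ⟨⋃ i, C i, ⋃ i, Q i, countable_iUnion hC, countable_iUnion hQ, ?_⟩
  intro a q ha
  obtain ⟨i, hi⟩ := mem_iUnion.1 ha
  rcases hh i a q hi with h1 | h1
  · exact Or.inl (mem_iUnion.2 ⟨i, h1⟩)
  · refine Or.inr fun h2 => h1 ?_
    exact (subset_iUnion Q i).trans h2

theorem SmallAt.union {k : ℕ} {A B : Set (Vt W D)} (hA : SmallAt k A) (hB : SmallAt k B) :
    SmallAt k (A ∪ B) := by
  rw [union_eq_iUnion]
  refine SmallAt.iUnion fun b => ?_
  cases b
  · exact hB
  · exact hA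

theorem smallAt_empty (k : ℕ) : SmallAt k (∅ : Set (Vt W D)) :=
  ⟨∅, ∅, countable_empty, countable_empty, fun a q h => absurd h (notMem_empty _)⟩

theorem smallAt_of_proj {k : ℕ} {A : Set (Vt W D)} (h : (proj '' A).Countable) :
    SmallAt k A := by
  refine ⟨Prod.snd '' (proj '' A), ∅, h.image _, countable_empty, ?_⟩
  intro a q ha
  exact Or.inl ⟨(k, a), ⟨_, ha, rfl⟩, rfl⟩

theorem smallAt_finset {k : ℕ} (A : Finset (Vt W D)) : SmallAt k (A : Set (Vt W D)) :=
  smallAt_of_proj ((A.finite_toSet.image _).countable)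

theorem smallAt_notin {j k : ℕ} (d : D k) :
    SmallAt j {v : Vt W D | ∃ (a : W) (q : ℕ → D k), v = ⟨k, (a, q)⟩ ∧ d ∉ range q} := by
  by_cases hjk : j = k
  · subst hjk
    refine ⟨∅, {d}, countable_empty, countable_singleton _, ?_⟩
    rintro a q ⟨a', q', h, hd⟩
    rw [Sigma.mk.injEq] at h
    have h2 := eq_of_heq h.2
    rw [Prod.mk.injEq] at h2
    right
    intro h3
    rw [h2.2] at h3
    exact hd (h3 rfl)
  · refine ⟨∅, ∅, countable_empty, countable_empty, ?_⟩
    rintro a q ⟨a', q', h, hd⟩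
    rw [Sigma.mk.injEq] at h
    exact absurd h.1 hjk

theorem not_smallAt_univ [Uncountable W] (k : ℕ) [Nonempty (D k)] :
    ¬ SmallAt k (univ : Set (Vt W D)) := by
  rintro ⟨C, Q, hC, hQ, h⟩
  obtain ⟨a, ha⟩ : ∃ a, a ∉ C := by
    by_contra hcon
    push Not at hcon
    exact not_countable_univ (hC.mono fun x _ => hcon x)
  obtain ⟨q, hq⟩ : ∃ q : ℕ → D k, Q ⊆ range q := by
    rcases Q.eq_empty_or_nonempty with h0 | h0
    · exact ⟨fun _ => Classical.arbitrary _, by rw [h0]; exact empty_subset _⟩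
    · obtain ⟨q, hq⟩ := hQ.exists_eq_range h0
      exact ⟨q, hq.subset⟩
  rcases h a q (mem_univ _) with h1 | h1
  · exact ha h1
  · exact h1 hq

/-- adjacency on the index set -/
def adj (aW : W → W → Prop) (u v : Vt W D) : Prop := u.1 ≠ v.1 ∨ aW u.2.1 v.2.1

/-- Hypotheses on the graph on `W`. -/
structure GoodGraph (aW : W → W → Prop) : Prop where
  symm : ∀ a b, aW a b → aW b a
  irrefl : ∀ a, ¬ aW a a
  rich : ∀ S : Set W, S.Countable → S.Infinite →
    ∃ C : Set W, C.Countable ∧ ∀ a, a ∉ C → {b ∈ S | aW a b}.Infinite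
  cliques : ∀ S : Set W, (∀ a ∈ S, ∀ b ∈ S, a ≠ b → aW a b) → S.Countable

theorem adj_symm {aW : W → W → Prop} (h : GoodGraph aW) {u v : Vt W D} (huv : adj aW u v) :
    adj aW v u := by
  rcases huv with h1 | h1
  · exact Or.inl (Ne.symm h1)
  · exact Or.inr (h.symm _ _ h1)

theorem adj_irrefl {aW : W → W → Prop} (h : GoodGraph aW) (u : Vt W D) : ¬ adj aW u u := by
  rintro (h1 | h1)
  · exact h1 rfl
  · exact h.irrefl _ h1

theorem key_seq {aW : W → W → Prop} (h : GoodGraph aW) (k : ℕ) {T : Set (Vt W D)}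
    (hT : (proj '' T).Infinite) :
    ∃ β : ℕ → Vt W D, (∀ i, β i ∈ T) ∧ Function.Injective (fun i => proj (β i)) ∧
      SmallAt k {α : Vt W D | ¬ {i | adj aW α (β i)}.Infinite} := by
  classical
  let f := hT.natEmbedding
  have hf : ∀ i, ∃ v ∈ T, proj v = (f i : ℕ × W) := fun i => (f i).2
  choose β hβT hβ using hf
  have hinj : Function.Injective (fun i => proj (β i)) := by
    intro i j hij
    simp only [hβ] at hij
    exact f.injective (Subtype.ext hij)
  refine ⟨β, hβT, hinj, ?_⟩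
  by_cases hc : {i | (β i).1 ≠ k}.Infinite
  · refine ⟨∅, ∅, countable_empty, countable_empty, ?_⟩
    intro a q ha
    exfalso
    apply ha
    refine hc.mono ?_
    intro i hi
    left
    exact Ne.symm hi
  · have hfin : {i | (β i).1 ≠ k}.Finite := not_infinite.1 hc
    have hinf : {i | (β i).1 = k}.Infinite := by
      have : {i | (β i).1 = k} = {i | (β i).1 ≠ k}ᶜ := by
        ext i
        simp
      rw [this]
      exact hfin.infinite_compl
    set I := {i | (β i).1 = k} with hI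
    have hinjI : InjOn (fun i => (β i).2.1) I := by
      intro i hi j hj hij
      apply hinj
      simp only [proj]
      rw [Prod.mk.injEq]
      exact ⟨hi.trans hj.symm, hij⟩
    have hSinf : ((fun i => (β i).2.1) '' I).Infinite := hinf.image hinjI
    obtain ⟨C, hC, hCa⟩ := h.rich _ ((to_countable I).image _) hSinf
    refine ⟨C, ∅, hC, countable_empty, ?_⟩
    intro a q ha
    by_contra hcon
    push Not at hcon
    apply ha
    have h1 := hCa a hcon.1
    have h2 : {b ∈ (fun i => (β i).2.1) '' I | aW a b} ⊆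
        (fun i => (β i).2.1) '' {i | adj aW (⟨k, (a, q)⟩ : Vt W D) (β i)} := by
      rintro b ⟨⟨i, hi, rfl⟩, hb⟩
      exact ⟨i, Or.inr hb, rfl⟩
    exact (h1.mono h2).of_image _

open Classical in
/-- acceptance of rank at most `r` -/
def Acc (aW : W → W → Prop) (N : Set (Finset (Vt W D) × Finset (Vt W D))) :
    ℕ → Finset (Vt W D) → Prop
  | 0, E => ∃ p ∈ N, p.1 ⊆ E ∧ Disjoint p.2 E
  | r + 1, E => Acc aW N r E ∨ Pos {α | (∀ e ∈ E, adj aW α e) ∧ Acc aW N r (insert α E)}

def Accd (aW : W → W → Prop) (N : Set (Finset (Vt W D) × Finset (Vt W D)))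
    (E : Finset (Vt W D)) : Prop := ∃ r, Acc aW N r E

variable {aW : W → W → Prop} {N N' : Set (Finset (Vt W D) × Finset (Vt W D))}

theorem Acc.succ {r : ℕ} {E : Finset (Vt W D)} (h : Acc aW N r E) : Acc aW N (r + 1) E :=
  Or.inl h

theorem Acc.mono_N (hN : N ⊆ N') : ∀ {r : ℕ} {E : Finset (Vt W D)}, Acc aW N r E →
    Acc aW N' r E
  | 0, E, ⟨p, hp, h1⟩ => ⟨p, hN hp, h1⟩
  | r + 1, E, h => by
    rcases h with h | ⟨k, hk⟩
    · exact Or.inl (Acc.mono_N hN h)
    · refine Or.inr ⟨k, fun hs => hk (hs.mono ?_)⟩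
      rintro α ⟨h1, h2⟩
      exact ⟨h1, Acc.mono_N hN h2⟩

open Classical in
/-- If `E` is not accepted then only a small set of adjacent points leads to acceptance. -/
theorem small_of_not_accd {E : Finset (Vt W D)} (h : ¬ Accd aW N E) (k : ℕ) :
    SmallAt k {α | (∀ e ∈ E, adj aW α e) ∧ Accd aW N (insert α E)} := by
  have h1 : ∀ r, SmallAt k {α | (∀ e ∈ E, adj aW α e) ∧ Acc aW N r (insert α E)} := by
    intro r
    by_contra hcon
    exact h ⟨r + 1, Or.inr ⟨k, hcon⟩⟩
  refine (SmallAt.iUnion h1).mono ?_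
  rintro α ⟨h2, r, h3⟩
  exact mem_iUnion.2 ⟨r, h2, h3⟩

open Classical in
/-- The insertion lemma. -/
theorem insertion (hG : GoodGraph aW) : ∀ (r : ℕ) (E : Finset (Vt W D)), Acc aW N r E →
    (proj '' {β | (∀ e ∈ E, adj aW β e) ∧ ¬ Acc aW N r (insert β E)}).Finite
  | 0, E, ⟨p, hp, h1, h2⟩ => by
    refine (p.2.finite_toSet.subset ?_).image _
    rintro β ⟨hβ1, hβ2⟩
    by_contra hcon
    apply hβ2
    refine ⟨p, hp, h1.trans (Finset.subset_insert _ _), ?_⟩
    rw [Finset.disjoint_insert_right]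
    exact ⟨fun h => hcon (Finset.mem_coe.2 h), h2⟩
  | r + 1, E, h => by
    rcases h with h | ⟨k, hk⟩
    · refine (insertion hG r E h).subset (image_mono ?_)
      rintro β ⟨hβ1, hβ2⟩
      exact ⟨hβ1, fun h3 => hβ2 (Or.inl h3)⟩
    · by_contra hcon
      obtain ⟨β, hβT, hinj, hsm⟩ := key_seq hG k (not_finite.1 hcon)
      set A := {α | (∀ e ∈ E, adj aW α e) ∧ Acc aW N r (insert α E)} with hA
      set B : ℕ → Set (Vt W D) := fun i =>
        {α | (∀ e ∈ insert (β i) E, adj aW α e) ∧ Acc aW N r (insert α (insert (β i) E))} with hB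
      have hcov : A ⊆ (⋃ i, B i) ∪ {α : Vt W D | ¬ {i | adj aW α (β i)}.Infinite} := by
        rintro α ⟨hα1, hα2⟩
        by_cases hα : {i | adj aW α (β i)}.Infinite
        · left
          have hfin := insertion hG r (insert α E) hα2
          obtain ⟨i, hi1, hi2⟩ : ∃ i, adj aW α (β i) ∧
              β i ∉ {β | (∀ e ∈ insert α E, adj aW β e) ∧
                ¬ Acc aW N r (insert β (insert α E))} := by
            by_contra hno
            push Not at hno
            have h3 : ((fun i => proj (β i)) '' {i | adj aW α (β i)}).Infinite :=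
              hα.image hinj.injOn
            apply h3
            refine hfin.subset ?_
            rintro _ ⟨i, hi, rfl⟩
            exact ⟨β i, hno i hi, rfl⟩
          refine mem_iUnion.2 ⟨i, ?_, ?_⟩
          · intro e he
            rw [Finset.mem_insert] at he
            rcases he with he | he
            · rw [he]
              exact hi1
            · exact hα1 e he
          · by_contra hacc
            apply hi2
            refine ⟨?_, ?_⟩
            · intro e he
              rw [Finset.mem_insert] at he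
              rcases he with he | he
              · rw [he]
                exact adj_symm hG hi1
              · exact (hβT i).1 e he
            · rw [Finset.insert_comm]
              exact hacc
        · exact Or.inr hα
      obtain ⟨i, hi⟩ : ∃ i, ¬ SmallAt k (B i) := by
        by_contra hno
        push Not at hno
        exact hk (((SmallAt.iUnion hno).union hsm).mono hcov)
      exact (hβT i).2 (Or.inr ⟨k, hi⟩)

/-- restriction of a code to the levels below `k` -/
def restr (N : Set (Finset (Vt W D) × Finset (Vt W D))) (k : ℕ) :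
    Set (Finset (Vt W D) × Finset (Vt W D)) :=
  {p ∈ N | (∀ v ∈ p.1, v.1 < k) ∧ ∀ v ∈ p.2, v.1 < k}

theorem restr_mono {k l : ℕ} (h : k ≤ l) : restr N k ⊆ restr N l := by
  rintro p ⟨h1, h2, h3⟩
  exact ⟨h1, fun v hv => (h2 v hv).trans_le h, fun v hv => (h3 v hv).trans_le h⟩

open Classical in
theorem exists_restr : ∀ (r : ℕ) (E : Finset (Vt W D)), Acc aW N r E →
    ∃ k, Acc aW (restr N k) r E
  | 0, E, ⟨p, hp, h1, h2⟩ => by
    refine ⟨(p.1 ∪ p.2).sup (fun v => v.1) + 1, p, ⟨hp, ?_, ?_⟩, h1, h2⟩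
    · intro v hv
      exact Nat.lt_succ_of_le (Finset.le_sup (f := fun v : Vt W D => v.1)
        (Finset.mem_union_left _ hv))
    · intro v hv
      exact Nat.lt_succ_of_le (Finset.le_sup (f := fun v : Vt W D => v.1)
        (Finset.mem_union_right _ hv))
  | r + 1, E, h => by
    rcases h with h | ⟨j, hj⟩
    · obtain ⟨k, hk⟩ := exists_restr r E h
      exact ⟨k, Or.inl hk⟩
    · by_contra hno
      push Not at hno
      apply hj
      have h1 : ∀ k, SmallAt j {α | (∀ e ∈ E, adj aW α e) ∧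
          Acc aW (restr N k) r (insert α E)} := by
        intro k
        by_contra hcon
        exact hno k (Or.inr ⟨j, hcon⟩)
      refine (SmallAt.iUnion h1).mono ?_
      rintro α ⟨hα1, hα2⟩
      obtain ⟨k, hk⟩ := exists_restr r _ hα2
      exact mem_iUnion.2 ⟨k, hα1, hk⟩

end

end Pool.Agent.Lib.MP_8c874d_gt
end

section
set_option autoImplicit false

/-!
The compact space of cliques, the subspace `Y` and the maximal centered family.
-/

namespace Pool.Agent.Lib.MP_8c874d_gt

open Set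

section

variable {W : Type} {D : ℕ → Type} {aW : W → W → Prop}

/-- The cliques, as a subset of the Cantor cube. -/
def Clq (W : Type) (D : ℕ → Type) (aW : W → W → Prop) : Set (Vt W D → Bool) :=
  {x | ∀ u v, x u = true → x v = true → u ≠ v → adj aW u v}

/-- Membership in the open set coded by `N`. -/
def inO (N : Set (Finset (Vt W D) × Finset (Vt W D))) (x : Vt W D → Bool) : Prop :=
  ∃ p ∈ N, (∀ v ∈ p.1, x v = true) ∧ ∀ v ∈ p.2, x v = false

/-- The subspace. -/
def YY (aW : W → W → Prop) (dec : ∀ k, D k → Set (Finset (Vt W D) × Finset (Vt W D))) :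
    Set (Clq W D aW) :=
  {y | (∀ k, ∃ v, v.1 = k ∧ y.1 v = true) ∧ ∀ (k : ℕ) (d : D k),
    (∀ (a : W) (q : ℕ → D k), y.1 ⟨k, (a, q)⟩ = true → d ∈ range q) →
    (∀ F : Finset (Vt W D), (∀ v ∈ F, y.1 v = true) → Accd aW (dec k d) F) →
    inO (dec k d) y.1}

/-- The family. -/
def FF (aW : W → W → Prop) (dec : ∀ k, D k → Set (Finset (Vt W D) × Finset (Vt W D))) :
    Set (Set (YY aW dec)) :=
  {K | IsClosed K ∧ ∃ N, ¬ Accd aW N ∅ ∧ ∀ y : YY aW dec, ¬ inO N y.1.1 → y ∈ K}

open Classical in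
theorem notAcc_of_tame {N : Set (Finset (Vt W D) × Finset (Vt W D))}
    (Tm : Finset (Vt W D) → Prop)
    (h0 : ∀ E, Tm E → ¬ ∃ p ∈ N, p.1 ⊆ E ∧ Disjoint p.2 E)
    (h1 : ∀ E k, Tm E → SmallAt k {α | (∀ e ∈ E, adj aW α e) ∧ ¬ Tm (insert α E)}) :
    ∀ (r : ℕ) (E : Finset (Vt W D)), Tm E → ¬ Acc aW N r E
  | 0, E, hE => h0 E hE
  | r + 1, E, hE => by
    rintro (h | ⟨k, hk⟩)
    · exact notAcc_of_tame Tm h0 h1 r E hE h
    · apply hk
      refine (h1 E k hE).mono ?_
      rintro α ⟨hα1, hα2⟩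
      exact ⟨hα1, fun h => notAcc_of_tame Tm h0 h1 r _ h hα2⟩

/-- finite basic neighbourhoods -/
theorem exists_box {ι : Type} {U : Set (ι → Bool)} (hU : IsOpen U) {x : ι → Bool}
    (hx : x ∈ U) : ∃ F G : Finset ι, (∀ v ∈ F, x v = true) ∧ (∀ v ∈ G, x v = false) ∧
      ∀ z : ι → Bool, (∀ v ∈ F, z v = true) → (∀ v ∈ G, z v = false) → z ∈ U := by
  classical
  obtain ⟨I, u, hI, hu⟩ := isOpen_pi_iff.1 hU x hx
  refine ⟨I.filter (fun v => x v = true), I.filter (fun v => x v = false), ?_, ?_, ?_⟩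
  · intro v hv
    exact (Finset.mem_filter.1 hv).2
  · intro v hv
    exact (Finset.mem_filter.1 hv).2
  · intro z hz1 hz2
    apply hu
    intro v hv
    have hzx : z v = x v := by
      cases hxv : x v
      · exact hz2 v (Finset.mem_filter.2 ⟨hv, hxv⟩)
      · exact hz1 v (Finset.mem_filter.2 ⟨hv, hxv⟩)
    rw [hzx]
    exact (hI v hv).2

/-- conditions -/
structure Cond (aW : W → W → Prop) {ι : Type}
    (N : ι → Set (Finset (Vt W D) × Finset (Vt W D)))
    (c : Finset (Vt W D) × Finset (Vt W D)) : Prop where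
  clq : ∀ u ∈ c.1, ∀ v ∈ c.1, u ≠ v → adj aW u v
  disj : Disjoint c.2 c.1
  not : ∀ (i : ι) (F : Finset (Vt W D)), F ⊆ c.1 → ¬ Accd aW (N i) F

variable {ι : Type} [Countable ι] {N : ι → Set (Finset (Vt W D) × Finset (Vt W D))}

open Classical in
theorem Cond.ext (hG : GoodGraph aW) {c : Finset (Vt W D) × Finset (Vt W D)}
    (hc : Cond aW N c) {k : ℕ} {A : Set (Vt W D)} (hA : ¬ SmallAt k A)
    (hA2 : ∀ α ∈ A, ∀ e ∈ c.1, adj aW α e) :
    ∃ α ∈ A, Cond aW N (insert α c.1, c.2) := by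
  have hsm : SmallAt k ((⋃ i : ι, ⋃ F : {F // F ∈ c.1.powerset},
      {α | (∀ e ∈ F.1, adj aW α e) ∧ Accd aW (N i) (insert α F.1)}) ∪
        (c.2 : Set (Vt W D))) := by
    refine (SmallAt.iUnion fun i => SmallAt.iUnion fun F => ?_).union (smallAt_finset _)
    exact small_of_not_accd (hc.not i F.1 (Finset.mem_powerset.1 F.2)) k
  obtain ⟨α, hα1, hα2⟩ : ∃ α ∈ A, α ∉ ((⋃ i : ι, ⋃ F : {F // F ∈ c.1.powerset},
      {α | (∀ e ∈ F.1, adj aW α e) ∧ Accd aW (N i) (insert α F.1)}) ∪
        (c.2 : Set (Vt W D))) := by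
    by_contra hno
    push Not at hno
    exact hA (hsm.mono hno)
  refine ⟨α, hα1, ?_, ?_, ?_⟩
  · intro u hu v hv huv
    rw [Finset.mem_insert] at hu hv
    rcases hu with hu | hu <;> rcases hv with hv | hv
    · exact absurd (hu.trans hv.symm) huv
    · rw [hu]
      exact hA2 α hα1 v hv
    · rw [hv]
      exact adj_symm hG (hA2 α hα1 u hu)
    · exact hc.clq u hu v hv huv
  · rw [Finset.disjoint_insert_right]
    exact ⟨fun h => hα2 (Or.inr h), hc.disj⟩
  · intro i F hF hacc
    by_cases hαF : α ∈ F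
    · apply hα2
      left
      refine mem_iUnion.2 ⟨i, mem_iUnion.2 ⟨⟨F.erase α, ?_⟩, ?_, ?_⟩⟩
      · rw [Finset.mem_powerset]
        intro e he
        rw [Finset.mem_erase] at he
        rcases Finset.mem_insert.1 (hF he.2) with h | h
        · exact absurd h he.1
        · exact h
      · intro e he
        rw [Finset.mem_erase] at he
        rcases Finset.mem_insert.1 (hF he.2) with h | h
        · exact absurd h he.1
        · exact hA2 α hα1 e h
      · dsimp only
        rw [Finset.insert_erase hαF]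
        exact hacc
    · refine hc.not i F ?_ hacc
      intro e he
      rcases Finset.mem_insert.1 (hF he) with h | h
      · exact absurd (h ▸ he) hαF
      · exact h

/-- extension of conditions -/
def Le (c c' : Finset (Vt W D) × Finset (Vt W D)) : Prop := c.1 ⊆ c'.1 ∧ c.2 ⊆ c'.2

theorem Le.refl (c : Finset (Vt W D) × Finset (Vt W D)) : Le c c :=
  ⟨Finset.Subset.refl _, Finset.Subset.refl _⟩

theorem Le.trans {a b c : Finset (Vt W D) × Finset (Vt W D)} (h : Le a b) (h' : Le b c) :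
    Le a c := ⟨h.1.trans h'.1, h.2.trans h'.2⟩

open Classical in
theorem steer (hG : GoodGraph aW) (M : Set (Finset (Vt W D) × Finset (Vt W D))) :
    ∀ (r : ℕ) (c : Finset (Vt W D) × Finset (Vt W D)), Cond aW N c → Acc aW M r c.1 →
      ∃ c', Cond aW N c' ∧ Le c c' ∧ ∃ p ∈ M, p.1 ⊆ c'.1 ∧ p.2 ⊆ c'.2
  | 0, c, hc, ⟨p, hp, h1, h2⟩ => by
    refine ⟨(c.1, c.2 ∪ p.2), ⟨hc.clq, ?_, hc.not⟩, ⟨Finset.Subset.refl _, ?_⟩, p, hp, h1, ?_⟩
    · rw [Finset.disjoint_union_left]
      exact ⟨hc.disj, h2⟩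
    · exact Finset.subset_union_left
    · exact Finset.subset_union_right
  | r + 1, c, hc, h => by
    rcases h with h | ⟨k, hk⟩
    · exact steer hG M r c hc h
    · obtain ⟨α, hα, hcα⟩ := hc.ext hG hk (fun α hα => hα.1)
      obtain ⟨c', h1, h2, h3⟩ := steer hG M r _ hcα hα.2
      exact ⟨c', h1, Le.trans (a := c) (b := (insert α c.1, c.2))
        ⟨Finset.subset_insert _ _, Finset.Subset.refl _⟩ h2, h3⟩

/-- the requirement for the code `M` -/
def Met (aW : W → W → Prop) (M : Set (Finset (Vt W D) × Finset (Vt W D)))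
    (c : Finset (Vt W D) × Finset (Vt W D)) : Prop :=
  (∃ F ⊆ c.1, ¬ Accd aW M F) ∨ ∃ p ∈ M, p.1 ⊆ c.1 ∧ p.2 ⊆ c.2

theorem Met.mono {M : Set (Finset (Vt W D) × Finset (Vt W D))}
    {c c' : Finset (Vt W D) × Finset (Vt W D)} (h : Met aW M c) (hle : Le c c') :
    Met aW M c' := by
  rcases h with ⟨F, hF, h⟩ | ⟨p, hp, h1, h2⟩
  · exact Or.inl ⟨F, hF.trans hle.1, h⟩
  · exact Or.inr ⟨p, hp, h1.trans hle.1, h2.trans hle.2⟩

theorem exists_met (hG : GoodGraph aW) (M : Set (Finset (Vt W D) × Finset (Vt W D)))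
    (c : Finset (Vt W D) × Finset (Vt W D)) (hc : Cond aW N c) :
    ∃ c', Cond aW N c' ∧ Le c c' ∧ Met aW M c' := by
  by_cases h : Accd aW M c.1
  · obtain ⟨r, hr⟩ := h
    obtain ⟨c', h1, h2, h3⟩ := steer hG M r c hc hr
    exact ⟨c', h1, h2, Or.inr h3⟩
  · exact ⟨c, hc, Le.refl c, Or.inl ⟨c.1, Finset.Subset.refl _, h⟩⟩

theorem exists_met_list (hG : GoodGraph aW) :
    ∀ (L : List (Set (Finset (Vt W D) × Finset (Vt W D))))
    (c : Finset (Vt W D) × Finset (Vt W D)), Cond aW N c →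
    ∃ c', Cond aW N c' ∧ Le c c' ∧ ∀ M ∈ L, Met aW M c'
  | [], c, hc => ⟨c, hc, Le.refl c, by simp⟩
  | M :: L, c, hc => by
    obtain ⟨c1, h1, h2, h3⟩ := exists_met hG M c hc
    obtain ⟨c2, h4, h5, h6⟩ := exists_met_list hG L c1 h1
    refine ⟨c2, h4, h2.trans h5, ?_⟩
    intro M' hM'
    rcases List.mem_cons.1 hM' with h | h
    · rw [h]
      exact h3.mono h5
    · exact h6 M' h

open Classical in
theorem exists_level (hG : GoodGraph aW) [Uncountable W] [∀ k, Nonempty (D k)] (k : ℕ)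
    (c : Finset (Vt W D) × Finset (Vt W D)) (hc : Cond aW N c) :
    ∃ c', Cond aW N c' ∧ Le c c' ∧ ∃ v ∈ c'.1, v.1 = k := by
  by_cases h : ∃ v ∈ c.1, v.1 = k
  · exact ⟨c, hc, Le.refl c, h⟩
  · push Not at h
    have hA : ¬ SmallAt k {v : Vt W D | v.1 = k} := by
      rintro ⟨C, Q, hC, hQ, hh⟩
      exact not_smallAt_univ (W := W) (D := D) k ⟨C, Q, hC, hQ, fun a q _ => hh a q rfl⟩
    obtain ⟨α, hα, hcα⟩ := hc.ext hG hA (fun α hα e he => Or.inl (fun h1 => h e he (h1 ▸ hα)))
    exact ⟨_, hcα, ⟨Finset.subset_insert _ _, Finset.Subset.refl _⟩, α,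
      Finset.mem_insert_self _ _, hα⟩

open Classical in
/-- The main construction: countably many small coded open sets do not cover `Y`. -/
theorem exists_point (hG : GoodGraph aW) [Uncountable W] [∀ k, Nonempty (D k)]
    (dec : ∀ k, D k → Set (Finset (Vt W D) × Finset (Vt W D)))
    (hN : ∀ i, ¬ Accd aW (N i) ∅) :
    ∃ y : YY aW dec, ∀ i, ¬ inO (N i) y.1.1 := by
  have step : ∀ (n : ℕ) (c : {c : Finset (Vt W D) × Finset (Vt W D) // Cond aW N c}),
      ∃ c' : {c : Finset (Vt W D) × Finset (Vt W D) // Cond aW N c}, Le c.1 c'.1 ∧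
        (∃ v ∈ c'.1.1, v.1 = n) ∧
        ∀ v ∈ c.1.1, ∀ j ≤ n, Met aW (dec v.1 (v.2.2 j)) c'.1 := by
    rintro n ⟨c, hc⟩
    obtain ⟨c1, h1, h2, h3⟩ := exists_level hG n c hc
    obtain ⟨c2, h4, h5, h6⟩ := exists_met_list hG
      ((c.1.toList ×ˢ List.range (n + 1)).map
        (fun p : Vt W D × ℕ => dec p.1.1 (p.1.2.2 p.2))) c1 h1
    refine ⟨⟨c2, h4⟩, h2.trans h5, ?_, ?_⟩
    · obtain ⟨v, hv, hv2⟩ := h3
      exact ⟨v, h5.1 hv, hv2⟩
    · intro v hv j hj
      apply h6
      rw [List.mem_map]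
      refine ⟨(v, j), ?_, rfl⟩
      rw [List.mem_product]
      exact ⟨Finset.mem_toList.2 hv, List.mem_range.2 (by omega)⟩
  choose next hn1 hn2 hn3 using step
  let c0 : {c : Finset (Vt W D) × Finset (Vt W D) // Cond aW N c} :=
    ⟨(∅, ∅), ⟨by simp, by simp, fun i F hF => by
      have : F = ∅ := Finset.subset_empty.1 hF
      rw [this]
      exact hN i⟩⟩
  let s : ℕ → {c : Finset (Vt W D) × Finset (Vt W D) // Cond aW N c} :=
    fun n => Nat.rec c0 (fun n c => next n c) n
  have hs : ∀ n, s (n + 1) = next n (s n) := fun n => rfl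
  have hle1 : ∀ n, Le (s n).1 (s (n + 1)).1 := fun n => by
    rw [hs]
    exact hn1 n (s n)
  have hle : ∀ m n, m ≤ n → Le (s m).1 (s n).1 := by
    intro m n hmn
    induction n, hmn using Nat.le_induction with
    | base => exact Le.refl _
    | succ n _ ih => exact ih.trans (hle1 n)
  let y : Vt W D → Bool := fun v => decide (∃ n, v ∈ (s n).1.1)
  have hy : ∀ v, y v = true ↔ ∃ n, v ∈ (s n).1.1 := fun v => decide_eq_true_iff
  have hfin : ∀ F : Finset (Vt W D), (∀ v ∈ F, y v = true) → ∃ n, F ⊆ (s n).1.1 := by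
    intro F
    induction F using Finset.induction_on with
    | empty => exact fun _ => ⟨0, Finset.empty_subset _⟩
    | insert a F ha ih =>
      intro h
      obtain ⟨n, hn⟩ := ih (fun v hv => h v (Finset.mem_insert_of_mem hv))
      obtain ⟨m, hm⟩ := (hy a).1 (h a (Finset.mem_insert_self _ _))
      refine ⟨max m n, ?_⟩
      intro v hv
      rcases Finset.mem_insert.1 hv with h1 | h1
      · rw [h1]
        exact (hle m _ (le_max_left _ _)).1 hm
      · exact (hle n _ (le_max_right _ _)).1 (hn h1)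
  have hG2 : ∀ n, ∀ v ∈ (s n).1.2, y v = false := by
    intro n v hv
    by_contra hcon
    rw [Bool.not_eq_false] at hcon
    obtain ⟨m, hm⟩ := (hy v).1 hcon
    have h1 := (hle m _ (le_max_left m n)).1 hm
    have h2 := (hle n _ (le_max_right m n)).2 hv
    exact Finset.disjoint_left.1 (s (max m n)).2.disj h2 h1
  have hclq : y ∈ Clq W D aW := by
    intro u v hu hv huv
    obtain ⟨m, hm⟩ := (hy u).1 hu
    obtain ⟨n, hn⟩ := (hy v).1 hv
    exact (s (max m n)).2.clq u ((hle m _ (le_max_left m n)).1 hm) v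
      ((hle n _ (le_max_right m n)).1 hn) huv
  have hYY : (⟨y, hclq⟩ : Clq W D aW) ∈ YY aW dec := by
    constructor
    · intro k
      obtain ⟨v, hv, hv2⟩ := hn2 k (s k)
      exact ⟨v, hv2, (hy v).2 ⟨k + 1, hv⟩⟩
    · intro k d hd htame
      obtain ⟨v, hv, hvk⟩ := hn2 k (s k)
      obtain ⟨k', a, q⟩ := v
      dsimp only at hvk
      subst hvk
      obtain ⟨j, hj⟩ := hd a q ((hy _).2 ⟨k' + 1, hv⟩)
      have hmet := hn3 (max (k' + 1) j) (s (max (k' + 1) j)) ⟨k', a, q⟩
        ((hle (k' + 1) _ (le_max_left _ _)).1 hv) j (le_max_right _ _)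
      rw [← hs] at hmet
      dsimp only at hmet
      rw [hj] at hmet
      rcases hmet with ⟨F, hF, hF2⟩ | ⟨p, hp, hp1, hp2⟩
      · exact absurd (htame F (fun v hv => (hy v).2 ⟨max (k' + 1) j + 1, hF hv⟩)) hF2
      · exact ⟨p, hp, fun v hv => (hy v).2 ⟨max (k' + 1) j + 1, hp1 hv⟩,
          fun v hv => hG2 (max (k' + 1) j + 1) v (hp2 hv)⟩
  refine ⟨⟨⟨y, hclq⟩, hYY⟩, ?_⟩
  rintro i ⟨p, hp, hp1, hp2⟩
  obtain ⟨n, hn⟩ := hfin p.1 hp1
  refine (s n).2.not i p.1 hn ⟨0, p, hp, Finset.Subset.refl _, ?_⟩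
  rw [Finset.disjoint_left]
  intro v hv2 hv1
  have h1 := hp1 v hv1
  have h2 := hp2 v hv2
  dsimp only at h1 h2
  rw [h1] at h2
  exact Bool.noConfusion h2

open Classical in
theorem main_ghost (hG : GoodGraph aW) [Uncountable W] [∀ k, Nonempty (D k)]
    (dec : ∀ k, D k → Set (Finset (Vt W D) × Finset (Vt W D)))
    (hdec : ∀ (k : ℕ) (N : Set (Finset (Vt W D) × Finset (Vt W D))),
      ∃ d : D k, dec k d = restr N k) :
    ¬ AlphaRealcompact (YY aW dec) := by
  have hCIP : CIP (FF aW dec) := by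
    intro 𝓢 h𝓢 hc
    have hcount : Countable 𝓢 := hc.to_subtype
    have h1 : ∀ K : 𝓢, ∃ N, ¬ Accd aW N ∅ ∧ ∀ y : YY aW dec, ¬ inO N y.1.1 → y ∈ K.1 :=
      fun K => (h𝓢 K.2).2
    choose N hN1 hN2 using h1
    obtain ⟨y, hy⟩ := exists_point hG dec (N := N) hN1
    refine ⟨y, ?_⟩
    intro K hK
    exact hN2 ⟨K, hK⟩ y (hy ⟨K, hK⟩)
  have hcyl : ∀ (v : Vt W D) (b : Bool), IsClosed {y : YY aW dec | y.1.1 v = b} := by
    intro v b
    have hc : Continuous (fun y : YY aW dec => y.1.1 v) :=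
      ((continuous_apply v).comp continuous_subtype_val).comp continuous_subtype_val
    exact (isClosed_discrete ({b} : Set Bool)).preimage hc
  intro hα
  have hne : (⋂₀ FF aW dec).Nonempty := by
    refine hα _ ⟨fun K hK => hK.1, fun 𝓢 h1 h2 => hCIP 𝓢 h1 h2.countable, ?_⟩ hCIP
    intro 𝓖 h𝓖1 h𝓖2 h𝓖3 K hK
    by_contra hKF
    let N : Set (Finset (Vt W D) × Finset (Vt W D)) :=
      {p | ∀ y : YY aW dec, (∀ v ∈ p.1, y.1.1 v = true) → (∀ v ∈ p.2, y.1.1 v = false) → y ∉ K}
    have hNK : ∀ y : YY aW dec, ¬ inO N y.1.1 → y ∈ K := by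
      intro y hy
      by_contra hyK
      apply hy
      obtain ⟨U1, hU1, hU2⟩ := isOpen_induced_iff.1 (h𝓖1 K hK).isOpen_compl
      obtain ⟨U3, hU3, hU4⟩ := isOpen_induced_iff.1 hU1
      have hyU : y.1.1 ∈ U3 := by
        have h1 : y ∈ (Subtype.val ⁻¹' U1 : Set (YY aW dec)) := by
          rw [hU2]
          exact hyK
        have h2 : y.1 ∈ U1 := h1
        rw [← hU4] at h2
        exact h2
      obtain ⟨F, G, hF, hG', hFG⟩ := exists_box hU3 hyU
      refine ⟨(F, G), ?_, hF, hG'⟩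
      intro z hz1 hz2
      have h1 : z.1.1 ∈ U3 := hFG _ hz1 hz2
      have h2 : z.1 ∈ U1 := by
        rw [← hU4]
        exact h1
      have h3 : z ∈ (Subtype.val ⁻¹' U1 : Set (YY aW dec)) := h2
      rw [hU2] at h3
      exact h3
    have hacc : Accd aW N ∅ := by
      by_contra hcon
      exact hKF ⟨h𝓖1 K hK, N, hcon, hNK⟩
    obtain ⟨r, hr⟩ := hacc
    obtain ⟨k, hk⟩ := exists_restr r ∅ hr
    obtain ⟨d, hd⟩ := hdec k N
    have hMacc : Accd aW (dec k d) ∅ := ⟨r, by rw [hd]; exact hk⟩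
    let K' : Set (YY aW dec) := {y | (∀ (a : W) (q : ℕ → D k),
      y.1.1 ⟨k, (a, q)⟩ = true → d ∈ range q) ∧
      ∀ F : Finset (Vt W D), (∀ v ∈ F, y.1.1 v = true) → Accd aW (dec k d) F}
    have hK'closed : IsClosed K' := by
      have h1 : K' = (⋂ (a : W) (q : ℕ → D k) (_ : d ∉ range q),
          {y : YY aW dec | y.1.1 ⟨k, (a, q)⟩ = false}) ∩
          ⋂ (F : Finset (Vt W D)) (_ : ¬ Accd aW (dec k d) F),
            ⋃ v ∈ F, {y : YY aW dec | y.1.1 v = false} := by
        ext y
        simp only [K', mem_inter_iff, mem_iInter, mem_iUnion, mem_ofPred_eq]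
        constructor
        · rintro ⟨h1, h2⟩
          refine ⟨?_, ?_⟩
          · intro a q hq
            by_contra hcon
            rw [Bool.not_eq_false] at hcon
            exact hq (h1 a q hcon)
          · intro F hF
            by_contra hcon
            push Not at hcon
            apply hF
            apply h2
            intro v hv
            have := hcon v hv
            simpa using this
        · rintro ⟨h1, h2⟩
          refine ⟨?_, ?_⟩
          · intro a q hy
            by_contra hcon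
            rw [h1 a q hcon] at hy
            exact Bool.noConfusion hy
          · intro F hF
            by_contra hcon
            obtain ⟨v, hv, hv2⟩ := h2 F hcon
            rw [hF v hv] at hv2
            exact Bool.noConfusion hv2
      rw [h1]
      refine IsClosed.inter ?_ ?_
      · exact isClosed_iInter fun a => isClosed_iInter fun q => isClosed_iInter fun _ =>
          hcyl _ _
      · refine isClosed_iInter fun F => isClosed_iInter fun _ => ?_
        exact isClosed_biUnion_finset fun v _ => hcyl _ _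
    have hK'F : K' ∈ FF aW dec := by
      refine ⟨hK'closed, {p | (∃ v ∈ p.1, ∃ (a : W) (q : ℕ → D k), v = ⟨k, (a, q)⟩ ∧
        d ∉ range q) ∨ ¬ Accd aW (dec k d) p.1}, ?_, ?_⟩
      · rintro ⟨r', hr'⟩
        refine notAcc_of_tame (aW := aW) (fun E => ∀ F ⊆ E,
          ¬ (∃ v ∈ F, ∃ (a : W) (q : ℕ → D k), v = ⟨k, (a, q)⟩ ∧ d ∉ range q) ∧
            Accd aW (dec k d) F) ?_ ?_ r' ∅ ?_ hr'
        · rintro E hE ⟨p, hp, hp1, -⟩
          rcases hp with hp | hp
          · exact (hE p.1 hp1).1 hp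
          · exact hp (hE p.1 hp1).2
        · intro E j hE
          have hsm : SmallAt j ({v : Vt W D | ∃ (a : W) (q : ℕ → D k), v = ⟨k, (a, q)⟩ ∧
              d ∉ range q} ∪ ⋃ F : {F // F ∈ E.powerset},
                {α | (∀ e ∈ F.1, adj aW α e) ∧ ¬ Accd aW (dec k d) (insert α F.1)}) := by
            refine (smallAt_notin d).union (SmallAt.iUnion fun F => ?_)
            obtain ⟨r1, hr1⟩ := (hE F.1 (Finset.mem_powerset.1 F.2)).2
            refine SmallAt.mono ?_ (smallAt_of_proj (insertion hG r1 F.1 hr1).countable)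
            rintro α ⟨hα1, hα2⟩
            exact ⟨hα1, fun h => hα2 ⟨r1, h⟩⟩
          refine hsm.mono ?_
          rintro α ⟨hα1, hα2⟩
          push Not at hα2
          obtain ⟨F, hF, hF2⟩ := hα2
          by_cases hbad : ∃ v ∈ F, ∃ (a : W) (q : ℕ → D k), v = ⟨k, (a, q)⟩ ∧ d ∉ range q
          · obtain ⟨v, hv, hv2⟩ := hbad
            rcases Finset.mem_insert.1 (hF hv) with h | h
            · left
              rw [← h]
              exact hv2
            · exact absurd ⟨v, Finset.mem_singleton_self v, hv2⟩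
                (hE {v} (Finset.singleton_subset_iff.2 h)).1
          · have hF3 : ¬ Accd aW (dec k d) F := by
              apply hF2
              intro v hv a q hvq
              by_contra hcon
              exact hbad ⟨v, hv, a, q, hvq, hcon⟩
            by_cases hαF : α ∈ F
            · right
              have hsub : F.erase α ⊆ E := by
                intro e he
                rw [Finset.mem_erase] at he
                rcases Finset.mem_insert.1 (hF he.2) with h | h
                · exact absurd h he.1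
                · exact h
              refine mem_iUnion.2 ⟨⟨F.erase α, Finset.mem_powerset.2 hsub⟩, ?_, ?_⟩
              · intro e he
                exact hα1 e (hsub he)
              · dsimp only
                rw [Finset.insert_erase hαF]
                exact hF3
            · exfalso
              apply hF3
              refine (hE F ?_).2
              intro e he
              rcases Finset.mem_insert.1 (hF he) with h | h
              · exact absurd (h ▸ he) hαF
              · exact h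
        · intro F hF
          have : F = ∅ := Finset.subset_empty.1 hF
          rw [this]
          exact ⟨by simp, hMacc⟩
      · intro y hy
        refine ⟨?_, ?_⟩
        · intro a q hyq
          by_contra hcon
          apply hy
          refine ⟨({⟨k, (a, q)⟩}, ∅), Or.inl ⟨_, Finset.mem_singleton_self _, a, q, rfl, hcon⟩,
            ?_, by simp⟩
          intro v hv
          rw [Finset.mem_singleton] at hv
          rw [hv]
          exact hyq
        · intro F hF
          by_contra hcon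
          exact hy ⟨(F, ∅), Or.inr hcon, hF, by simp⟩
    have hdisj : ∀ y, y ∈ K → y ∈ K' → False := by
      intro y hyK hyK'
      obtain ⟨p, hp, hp1, hp2⟩ := y.2.2 k d hyK'.1 hyK'.2
      rw [hd] at hp
      exact hp.1 y hp1 hp2 hyK
    obtain ⟨y, hy⟩ := h𝓖2 {K, K'} (by
      intro S hS
      rcases hS with hS | hS
      · rw [hS]
        exact hK
      · rw [mem_singleton_iff.1 hS]
        exact h𝓖3 hK'F) (toFinite _)
    exact hdisj y (hy K (by simp)) (hy K' (by simp))
  obtain ⟨y, hy⟩ := hne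
  obtain ⟨v, -, hv⟩ := y.2.1 0
  have hKv : {y' : YY aW dec | y'.1.1 v = false} ∈ FF aW dec := by
    refine ⟨hcyl v false, {({v}, ∅)}, ?_, ?_⟩
    · rintro ⟨r, hr⟩
      refine notAcc_of_tame (aW := aW) (fun E => v ∉ E) ?_ ?_ r ∅ (by simp) hr
      · rintro E hE ⟨p, hp, hp1, -⟩
        rw [mem_singleton_iff.1 hp] at hp1
        exact hE (hp1 (Finset.mem_singleton_self v))
      · intro E k hE
        refine SmallAt.mono ?_ (smallAt_finset {v})
        rintro α ⟨-, hα⟩
        rw [not_not, Finset.mem_insert] at hα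
        rcases hα with h | h
        · rw [← h]
          simp
        · exact absurd h hE
    · intro y' hy'
      by_contra hcon
      rw [mem_ofPred_eq, Bool.not_eq_false] at hcon
      apply hy'
      refine ⟨({v}, ∅), rfl, ?_, by simp⟩
      intro u hu
      rw [Finset.mem_singleton] at hu
      rw [hu]
      exact hcon
  have h1 := hy _ hKv
  rw [mem_ofPred_eq, hv] at h1
  exact Bool.noConfusion h1

end

end Pool.Agent.Lib.MP_8c874d_gt
end

section
set_option autoImplicit false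

/-!
Compact sets of countable sets are hereditarily metalindelof.
-/

namespace Pool.Agent.Lib.MP_8c874d_gt

open Set

section

variable {ι : Type}

def Box (F G : Finset ι) (x : ι → Bool) : Prop :=
  (∀ v ∈ F, x v = true) ∧ ∀ v ∈ G, x v = false

theorem isOpen_box (F G : Finset ι) : IsOpen {x : ι → Bool | Box F G x} := by
  have h1 : {x : ι → Bool | Box F G x} =
      (⋂ v ∈ F, {x : ι → Bool | x v = true}) ∩ ⋂ v ∈ G, {x : ι → Bool | x v = false} := by
    ext x
    simp [Box]
  rw [h1]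
  refine IsOpen.inter (isOpen_biInter_finset fun v _ => ?_)
    (isOpen_biInter_finset fun v _ => ?_)
  · exact (isOpen_discrete ({true} : Set Bool)).preimage
      (f := fun x : ι → Bool => x v) (continuous_apply v)
  · exact (isOpen_discrete ({false} : Set Bool)).preimage
      (f := fun x : ι → Bool => x v) (continuous_apply v)

theorem isClosed_box (F G : Finset ι) : IsClosed {x : ι → Bool | Box F G x} := by
  have h1 : {x : ι → Bool | Box F G x} =
      (⋂ v ∈ F, {x : ι → Bool | x v = true}) ∩ ⋂ v ∈ G, {x : ι → Bool | x v = false} := by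
    ext x
    simp [Box]
  rw [h1]
  refine IsClosed.inter (isClosed_iInter fun v => isClosed_iInter fun _ => ?_)
    (isClosed_iInter fun v => isClosed_iInter fun _ => ?_)
  · exact (isClosed_discrete ({true} : Set Bool)).preimage
      (f := fun x : ι → Bool => x v) (continuous_apply v)
  · exact (isClosed_discrete ({false} : Set Bool)).preimage
      (f := fun x : ι → Bool => x v) (continuous_apply v)

open Classical in
theorem dich (X : Set (ι → Bool)) (hX : IsCompact X) (hc : ∀ x ∈ X, {v | x v = true}.Countable)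
    (P : Finset ι → Finset ι → Prop) (F G : Finset ι) :
    ∃ H : Set ι, H.Countable ∧
      ((∀ x ∈ X, Box F G x → ∃ G1 : Finset ι, (G1 : Set ι) ⊆ H ∧ P F (G ∪ G1) ∧
        Box F (G ∪ G1) x) ∨
      (∀ G1 : Finset ι, P F (G ∪ G1) → ∃ v ∈ G1, v ∈ H)) := by
  by_cases h : ∀ x ∈ X, Box F G x → ∃ G1 : Finset ι, P F (G ∪ G1) ∧ Box F (G ∪ G1) x
  · have hK : IsCompact (X ∩ {x | Box F G x}) := hX.inter_right (isClosed_box F G)
    obtain ⟨t, ht⟩ := hK.elim_finite_subcover
      (fun G1 : {G1 : Finset ι // P F (G ∪ G1)} => {x | Box F (G ∪ G1.1) x})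
      (fun G1 => isOpen_box _ _) (by
        rintro x ⟨hx1, hx2⟩
        obtain ⟨G1, h1, h2⟩ := h x hx1 hx2
        exact mem_iUnion.2 ⟨⟨G1, h1⟩, h2⟩)
    refine ⟨⋃ G1 ∈ t, (G1.1 : Set ι), ?_, Or.inl ?_⟩
    · exact t.countable_toSet.biUnion fun G1 _ => G1.1.countable_toSet
    · intro x hx hbox
      obtain ⟨G1, hG1, hx1⟩ := mem_iUnion₂.1 (ht ⟨hx, hbox⟩)
      refine ⟨G1.1, ?_, G1.2, hx1⟩
      exact subset_biUnion_of_mem (u := fun G1 : {G1 : Finset ι // P F (G ∪ G1)} =>
        (G1.1 : Set ι)) hG1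
  · push Not at h
    obtain ⟨x, hx, hbox, h1⟩ := h
    refine ⟨{v | x v = true}, hc x hx, Or.inr ?_⟩
    intro G1 hG1
    by_contra hno
    push Not at hno
    apply h1 G1 hG1
    refine ⟨hbox.1, ?_⟩
    intro v hv
    rcases Finset.mem_union.1 hv with h2 | h2
    · exact hbox.2 v h2
    · have := hno v h2
      simpa using this

/-- one step of the closure -/
def stp (h : Finset ι → Finset ι → Set ι) (A : Set ι) : Set ι :=
  A ∪ ⋃ F ∈ {F : Finset ι | (F : Set ι) ⊆ A}, ⋃ G ∈ {G : Finset ι | (G : Set ι) ⊆ A}, h F G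

def cls (h : Finset ι → Finset ι → Set ι) (A : Set ι) : Set ι := ⋃ n : ℕ, (stp h)^[n] A

theorem countable_finsets {A : Set ι} (hA : A.Countable) :
    {F : Finset ι | (F : Set ι) ⊆ A}.Countable := by
  have h1 := Set.countable_ofPred_finite_subset hA
  refine (h1.preimage_of_injOn (f := fun F : Finset ι => (F : Set ι))
    (Finset.coe_injective.injOn)).mono ?_
  intro F hF
  exact ⟨F.finite_toSet, hF⟩

theorem stp_countable {h : Finset ι → Finset ι → Set ι} (hh : ∀ F G, (h F G).Countable)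
    {A : Set ι} (hA : A.Countable) : (stp h A).Countable := by
  refine hA.union ?_
  refine (countable_finsets hA).biUnion fun F _ => ?_
  exact (countable_finsets hA).biUnion fun G _ => hh F G

theorem subset_stp (h : Finset ι → Finset ι → Set ι) (A : Set ι) : A ⊆ stp h A :=
  subset_union_left

theorem stp_mono (h : Finset ι → Finset ι → Set ι) {A B : Set ι} (hAB : A ⊆ B) :
    stp h A ⊆ stp h B := by
  refine union_subset_union hAB ?_
  intro v hv
  simp only [mem_iUnion, mem_ofPred_eq] at hv ⊢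
  obtain ⟨F, hF, G, hG, hv⟩ := hv
  exact ⟨F, hF.trans hAB, G, hG.trans hAB, hv⟩

theorem iter_countable {h : Finset ι → Finset ι → Set ι} (hh : ∀ F G, (h F G).Countable)
    {A : Set ι} (hA : A.Countable) (n : ℕ) : ((stp h)^[n] A).Countable := by
  induction n with
  | zero => exact hA
  | succ n ih =>
    rw [Function.iterate_succ_apply']
    exact stp_countable hh ih

theorem cls_countable {h : Finset ι → Finset ι → Set ι} (hh : ∀ F G, (h F G).Countable)
    {A : Set ι} (hA : A.Countable) : (cls h A).Countable :=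
  countable_iUnion fun n => iter_countable hh hA n

theorem iter_mono_n (h : Finset ι → Finset ι → Set ι) (A : Set ι) {m n : ℕ} (hmn : m ≤ n) :
    (stp h)^[m] A ⊆ (stp h)^[n] A := by
  induction n, hmn using Nat.le_induction with
  | base => exact Subset.rfl
  | succ n _ ih =>
    rw [Function.iterate_succ_apply']
    exact ih.trans (subset_stp h _)

theorem iter_mono_set (h : Finset ι → Finset ι → Set ι) {A B : Set ι} (hAB : A ⊆ B) (n : ℕ) :
    (stp h)^[n] A ⊆ (stp h)^[n] B := by
  induction n with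
  | zero => exact hAB
  | succ n ih =>
    rw [Function.iterate_succ_apply', Function.iterate_succ_apply']
    exact stp_mono h ih

theorem cls_mono (h : Finset ι → Finset ι → Set ι) {A B : Set ι} (hAB : A ⊆ B) :
    cls h A ⊆ cls h B := iUnion_mono fun n => iter_mono_set h hAB n

theorem subset_cls (h : Finset ι → Finset ι → Set ι) (A : Set ι) : A ⊆ cls h A :=
  subset_iUnion (fun n => (stp h)^[n] A) 0

open Classical in
theorem exists_iter_of_finset (h : Finset ι → Finset ι → Set ι) (A : Set ι) (F : Finset ι)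
    (hF : (F : Set ι) ⊆ cls h A) : ∃ n, (F : Set ι) ⊆ (stp h)^[n] A := by
  induction F using Finset.induction_on with
  | empty => exact ⟨0, by simp⟩
  | insert a F ha ih =>
    rw [Finset.coe_insert] at hF
    obtain ⟨n, hn⟩ := ih ((subset_insert _ _).trans hF)
    obtain ⟨m, hm⟩ := mem_iUnion.1 (hF (mem_insert _ _))
    refine ⟨max m n, ?_⟩
    rw [Finset.coe_insert]
    refine insert_subset (iter_mono_n h A (le_max_left _ _) hm) ?_
    exact hn.trans (iter_mono_n h A (le_max_right _ _))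

theorem cls_closed (h : Finset ι → Finset ι → Set ι) (A : Set ι) (F G : Finset ι)
    (hF : (F : Set ι) ⊆ cls h A) (hG : (G : Set ι) ⊆ cls h A) : h F G ⊆ cls h A := by
  obtain ⟨m, hm⟩ := exists_iter_of_finset h A F hF
  obtain ⟨n, hn⟩ := exists_iter_of_finset h A G hG
  have h1 : h F G ⊆ (stp h)^[max m n + 1] A := by
    rw [Function.iterate_succ_apply']
    intro v hv
    right
    simp only [mem_iUnion, mem_ofPred_eq]
    exact ⟨F, hm.trans (iter_mono_n h A (le_max_left _ _)), G,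
      hn.trans (iter_mono_n h A (le_max_right _ _)), hv⟩
  exact h1.trans (subset_iUnion (fun n => (stp h)^[n] A) _)

open Classical in
/-- countable families of negative parts suffice -/
theorem exists_families (X : Set (ι → Bool)) (hX : IsCompact X)
    (hc : ∀ x ∈ X, {v | x v = true}.Countable)
    (P : Finset ι → Finset ι → Prop)
    (hP : ∀ F G F' G', F ⊆ F' → G ⊆ G' → P F G → P F' G') :
    ∃ C : Finset ι → Set ι, (∀ F, (C F).Countable) ∧
      ∀ x ∈ X, ∀ F0 G0, P F0 G0 → Box F0 G0 x →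
        ∃ F G : Finset ι, (G : Set ι) ⊆ C F ∧ P F G ∧ Box F G x := by
  choose h hh1 hh2 using fun F G => dich X hX hc P F G
  refine ⟨fun F => cls h (F : Set ι), fun F => cls_countable hh1 F.countable_toSet, ?_⟩
  intro x hx F0 G0 hP0 hbox
  -- the union of the closures of the finite subsets of the support
  let Cx : Set ι := {v | ∃ F : Finset ι, (∀ u ∈ F, x u = true) ∧ v ∈ cls h (F : Set ι)}
  have key : ∀ G : Finset ι, (G : Set ι) ⊆ Cx → ∃ F : Finset ι, F0 ⊆ F ∧
      (∀ u ∈ F, x u = true) ∧ (G : Set ι) ⊆ cls h (F : Set ι) := by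
    intro G
    induction G using Finset.induction_on with
    | empty => exact fun _ => ⟨F0, Finset.Subset.refl _, hbox.1, by simp⟩
    | insert a G ha ih =>
      intro hG
      rw [Finset.coe_insert] at hG
      obtain ⟨F1, h1, h2, h3⟩ := ih ((subset_insert _ _).trans hG)
      obtain ⟨F2, h4, h5⟩ := hG (mem_insert _ _)
      refine ⟨F1 ∪ F2, h1.trans Finset.subset_union_left, ?_, ?_⟩
      · intro u hu
        rcases Finset.mem_union.1 hu with hu | hu
        · exact h2 u hu
        · exact h4 u hu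
      · rw [Finset.coe_insert]
        refine insert_subset ?_ ?_
        · refine cls_mono h ?_ h5
          rw [Finset.coe_union]
          exact subset_union_right
        · refine h3.trans (cls_mono h ?_)
          rw [Finset.coe_union]
          exact subset_union_left
  obtain ⟨F, hF1, hF2, hF3⟩ := key (G0.filter (fun v => v ∈ Cx)) (by
    intro v hv
    exact (Finset.mem_filter.1 (Finset.mem_coe.1 hv)).2)
  set G' := G0.filter (fun v => v ∈ Cx) with hG'
  set G'' := G0.filter (fun v => v ∉ Cx) with hG''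
  have hGG : G' ∪ G'' = G0 := Finset.filter_union_filter_not_eq _ _
  have hbox' : Box F G' x :=
    ⟨hF2, fun v hv => hbox.2 v (Finset.mem_of_mem_filter v hv)⟩
  have hFC : (F : Set ι) ⊆ cls h (F : Set ι) := subset_cls h _
  have hsub : h F G' ⊆ cls h (F : Set ι) := cls_closed h _ F G' hFC hF3
  rcases hh2 F G' with h1 | h1
  · obtain ⟨G1, h2, h3, h4⟩ := h1 x hx hbox'
    refine ⟨F, G' ∪ G1, ?_, h3, h4⟩
    have h5 : ((G' ∪ G1 : Finset ι) : Set ι) ⊆ cls h (F : Set ι) := by
      rw [Finset.coe_union]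
      exact union_subset hF3 (h2.trans hsub)
    exact h5
  · exfalso
    obtain ⟨v, hv1, hv2⟩ := h1 G'' (by
      rw [hGG]
      exact hP F0 G0 F G0 hF1 (Finset.Subset.refl _) hP0)
    exact (Finset.mem_filter.1 hv1).2 ⟨F, hF2, hsub hv2⟩

open Classical in
theorem hereditarilyMetaLindelof_of_countable (X : Set (ι → Bool)) (hX : IsCompact X)
    (hc : ∀ x ∈ X, {v | x v = true}.Countable) : HereditarilyMetaLindelof X := by
  intro Y 𝒰 h𝒰1 h𝒰2
  let P : Finset ι → Finset ι → Prop := fun F G =>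
    ∃ U ∈ 𝒰, ∀ y : Y, Box F G y.1.1 → y ∈ U
  have hP : ∀ F G F' G', F ⊆ F' → G ⊆ G' → P F G → P F' G' := by
    rintro F G F' G' hF hG ⟨U, hU, h⟩
    exact ⟨U, hU, fun y hy => h y ⟨fun v hv => hy.1 v (hF hv), fun v hv => hy.2 v (hG hv)⟩⟩
  obtain ⟨C, hC1, hC2⟩ := exists_families X hX hc P hP
  refine ⟨{V | ∃ F G : Finset ι, (G : Set ι) ⊆ C F ∧ P F G ∧ V = {y : Y | Box F G y.1.1}},
    ?_, ?_, ?_, ?_⟩
  · rintro V ⟨F, G, -, -, rfl⟩
    have h1 : Continuous (fun y : Y => y.1.1) := continuous_subtype_val.comp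
      continuous_subtype_val
    exact (isOpen_box F G).preimage h1
  · refine eq_univ_of_forall fun y => ?_
    have hy : y ∈ ⋃₀ 𝒰 := by
      rw [h𝒰2]
      trivial
    obtain ⟨U, hU, hyU⟩ := hy
    obtain ⟨U1, hU1, hU2⟩ := isOpen_induced_iff.1 (h𝒰1 U hU)
    obtain ⟨U3, hU3, hU4⟩ := isOpen_induced_iff.1 hU1
    have hyU3 : y.1.1 ∈ U3 := by
      rw [← hU2] at hyU
      have h2 : y.1 ∈ U1 := hyU
      rw [← hU4] at h2
      exact h2
    obtain ⟨F0, G0, hF, hG', hFG⟩ := exists_box hU3 hyU3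
    have hP0 : P F0 G0 := by
      refine ⟨U, hU, ?_⟩
      intro z hz
      have h1 : z.1.1 ∈ U3 := hFG _ hz.1 hz.2
      rw [← hU2]
      have h2 : z.1 ∈ U1 := by
        rw [← hU4]
        exact h1
      exact h2
    obtain ⟨F, G, h1, h2, h3⟩ := hC2 y.1.1 y.1.2 F0 G0 hP0 ⟨hF, hG'⟩
    exact ⟨_, ⟨F, G, h1, h2, rfl⟩, h3⟩
  · rintro V ⟨F, G, -, ⟨U, hU, h⟩, rfl⟩
    exact ⟨U, hU, fun y hy => h y hy⟩
  · intro y
    have h1 : {F : Finset ι | (F : Set ι) ⊆ {v | y.1.1 v = true}}.Countable :=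
      countable_finsets (hc _ y.1.2)
    have h2 : (⋃ F ∈ {F : Finset ι | (F : Set ι) ⊆ {v | y.1.1 v = true}},
        (fun G : Finset ι => {z : Y | Box F G z.1.1}) ''
          {G : Finset ι | (G : Set ι) ⊆ C F}).Countable :=
      h1.biUnion fun F _ => (countable_finsets (hC1 F)).image _
    refine h2.mono ?_
    rintro V ⟨⟨F, G, h3, -, rfl⟩, hy⟩
    simp only [mem_iUnion]
    exact ⟨F, fun v hv => hy.1 v hv, G, h3, rfl⟩

end

end Pool.Agent.Lib.MP_8c874d_gt
end

section
set_option autoImplicit false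

/-!
Types without countably complete nonprincipal ultrafilters.
-/

namespace Pool.Agent.Lib.MP_8c874d_gt

open Set

/-- every countably complete ultrafilter on `S` is principal -/
def NoUf (S : Type) : Prop :=
  ∀ 𝒱 : Ultrafilter S, (∀ A : ℕ → Set S, (∀ n, A n ∈ 𝒱) → (⋂ n, A n) ∈ 𝒱) → ∃ x, {x} ∈ 𝒱

theorem NoUf.countable (S : Type) [Countable S] : NoUf S := by
  intro 𝒱 h
  by_contra hcon
  push Not at hcon
  obtain ⟨x0⟩ : Nonempty S := 𝒱.neBot.nonempty
  have : Nonempty S := ⟨x0⟩
  obtain ⟨f, hf⟩ := exists_surjective_nat S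
  have h1 := h (fun n => {f n}ᶜ) (fun n => Ultrafilter.compl_mem_iff_notMem.2 (hcon _))
  have h2 : (⋂ n, ({f n}ᶜ : Set S)) = ∅ := by
    ext x
    simp only [mem_iInter, mem_compl_iff, mem_singleton_iff, mem_empty_iff_false, iff_false]
    intro hx
    obtain ⟨n, hn⟩ := hf x
    exact hx n hn.symm
  rw [h2] at h1
  exact Ultrafilter.empty_notMem h1

theorem map_complete {S T : Type} (f : S → T) (𝒱 : Ultrafilter S)
    (h : ∀ A : ℕ → Set S, (∀ n, A n ∈ 𝒱) → (⋂ n, A n) ∈ 𝒱) :
    ∀ A : ℕ → Set T, (∀ n, A n ∈ 𝒱.map f) → (⋂ n, A n) ∈ 𝒱.map f := by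
  intro A hA
  rw [Ultrafilter.mem_map, preimage_iInter]
  exact h _ (fun n => Ultrafilter.mem_map.1 (hA n))

theorem NoUf.inj {S T : Type} (f : S → T) (hf : Function.Injective f) (hT : NoUf T) :
    NoUf S := by
  intro 𝒱 h
  obtain ⟨y, hy⟩ := hT (𝒱.map f) (map_complete f 𝒱 h)
  rw [Ultrafilter.mem_map] at hy
  obtain ⟨x, hx⟩ := 𝒱.nonempty_of_mem hy
  refine ⟨x, Filter.mem_of_superset hy ?_⟩
  intro z hz
  rw [mem_singleton_iff]
  apply hf
  rw [mem_singleton_iff.1 hz, mem_singleton_iff.1 hx]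

theorem NoUf.sigma {I : Type} {S : I → Type} (hI : NoUf I) (hS : ∀ i, NoUf (S i)) :
    NoUf (Σ i, S i) := by
  intro 𝒱 h
  obtain ⟨i, hi⟩ := hI (𝒱.map Sigma.fst) (map_complete _ 𝒱 h)
  rw [Ultrafilter.mem_map] at hi
  classical
  -- transport to the fibre
  have hr : range (Sigma.mk i : S i → Σ i, S i) ∈ 𝒱 := by
    refine Filter.mem_of_superset hi ?_
    rintro ⟨j, s⟩ hj
    have : j = i := hj
    subst this
    exact ⟨s, rfl⟩
  let 𝒲 : Ultrafilter (S i) := Ultrafilter.comap 𝒱 sigma_mk_injective hr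
  have hmem : ∀ B : Set (S i), B ∈ 𝒲 ↔ Sigma.mk i '' B ∈ 𝒱 := fun B =>
    Ultrafilter.mem_comap _ _ _
  obtain ⟨s, hs⟩ := hS i 𝒲 (by
    intro A hA
    rw [hmem]
    have h1 : (⋂ n, Sigma.mk i '' (A n)) ∈ 𝒱 := h _ (fun n => (hmem _).1 (hA n))
    refine Filter.mem_of_superset h1 ?_
    intro z hz
    rw [mem_iInter] at hz
    obtain ⟨s, hs, rfl⟩ := hz 0
    refine ⟨s, mem_iInter.2 fun n => ?_, rfl⟩
    obtain ⟨t, ht, hts⟩ := hz n
    rw [← sigma_mk_injective hts]
    exact ht)
  refine ⟨⟨i, s⟩, ?_⟩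
  have h2 := (hmem _).1 hs
  rwa [image_singleton] at h2

theorem NoUf.prod {S T : Type} (hS : NoUf S) (hT : NoUf T) : NoUf (S × T) :=
  NoUf.inj (Equiv.sigmaEquivProd S T).symm (Equiv.injective _) (NoUf.sigma hS fun _ => hT)

theorem NoUf.sum {S T : Type} (hS : NoUf S) (hT : NoUf T) : NoUf (S ⊕ T) := by
  refine NoUf.inj (Equiv.sumEquivSigmaBool S T) (Equiv.injective _)
    (NoUf.sigma (NoUf.countable Bool) fun b => ?_)
  cases b
  · exact hS
  · exact hT

open Classical in
theorem NoUf.set {S : Type} (hS : NoUf S) : NoUf (Set S) := by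
  intro 𝒱 h
  let A0 : Set S := {s | {A : Set S | s ∈ A} ∈ 𝒱}
  refine ⟨A0, ?_⟩
  by_contra hcon
  have hne : {A : Set S | A ≠ A0} ∈ 𝒱 := Ultrafilter.compl_mem_iff_notMem.2 hcon
  obtain ⟨B, hB⟩ := 𝒱.nonempty_of_mem hne
  have hex : ∀ A : Set S, A ≠ A0 → ∃ s, ¬ (s ∈ A ↔ s ∈ A0) := by
    intro A hA
    by_contra hno
    push Not at hno
    exact hA (Set.ext hno)
  obtain ⟨s0, -⟩ := hex B hB
  let g : Set S → S := fun A => if hA : A ≠ A0 then (hex A hA).choose else s0
  have hg : ∀ A, A ≠ A0 → ¬ (g A ∈ A ↔ g A ∈ A0) := by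
    intro A hA
    have h1 := (hex A hA).choose_spec
    simp only [g]
    rw [dif_pos hA]
    exact h1
  obtain ⟨s, hs⟩ := hS (𝒱.map g) (map_complete g 𝒱 h)
  rw [Ultrafilter.mem_map] at hs
  have h2 : {A : Set S | ¬ (s ∈ A ↔ s ∈ A0)} ∈ 𝒱 := by
    refine Filter.mem_of_superset (Filter.inter_mem hs hne) ?_
    rintro A ⟨hA1, hA2⟩
    have h3 := hg A hA2
    rw [show g A = s from hA1] at h3
    exact h3
  by_cases hsA : s ∈ A0
  · have h3 : {A : Set S | s ∈ A} ∈ 𝒱 := hsA
    obtain ⟨A, hA1, hA2⟩ := 𝒱.nonempty_of_mem (Filter.inter_mem h2 h3)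
    exact hA1 ⟨fun _ => hsA, fun _ => hA2⟩
  · apply hsA
    refine Filter.mem_of_superset h2 ?_
    intro A hA
    by_contra hsA'
    exact hA ⟨fun h => absurd h hsA', fun h => absurd h hsA⟩

theorem NoUf.finset {S : Type} (hS : NoUf S) : NoUf (Finset S) :=
  NoUf.inj (fun F : Finset S => (F : Set S)) Finset.coe_injective hS.set

theorem NoUf.seq {T : Type} (hT : NoUf T) : NoUf (ℕ → T) := by
  refine NoUf.inj (fun f : ℕ → T => {p : ℕ × T | f p.1 = p.2}) ?_
    ((NoUf.countable ℕ).prod hT).set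
  intro f g hfg
  funext n
  have h1 : (n, f n) ∈ {p : ℕ × T | g p.1 = p.2} := by
    rw [← show {p : ℕ × T | f p.1 = p.2} = {p : ℕ × T | g p.1 = p.2} from hfg]
    rfl
  exact (show g n = f n from h1).symm

theorem NoUf.bool {S : Type} (hS : NoUf S) : NoUf (S → Bool) := by
  refine NoUf.inj (fun f : S → Bool => {s | f s = true}) ?_ hS.set
  intro f g hfg
  funext s
  have h1 : s ∈ {s | f s = true} ↔ s ∈ {s | g s = true} := by
    rw [show {s | f s = true} = {s | g s = true} from hfg]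
  have h2 : f s = true ↔ g s = true := h1
  cases hf : f s
  · cases hg : g s
    · rfl
    · exact absurd (h2.2 hg) (by rw [hf]; exact Bool.false_ne_true)
  · exact (h2.1 hf).symm

open Cardinal in
theorem not_measurable {X : Type} (hX : NoUf X) (D : Set X) : ¬ IsMeasurableCardinal #D := by
  rintro ⟨h1, S, hS, 𝒱, h2, h3⟩
  obtain ⟨e⟩ := Cardinal.eq.1 hS
  have hSN : NoUf S := NoUf.inj (fun s => (e s : X))
    (Subtype.val_injective.comp e.injective) hX
  obtain ⟨x, hx⟩ := hSN 𝒱 (by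
    intro A hA
    have h4 : #(range A) < #D := lt_of_le_of_lt (mk_range_le.trans (by simp)) h1
    have h5 := h3 (range A) h4 (by
      rintro _ ⟨n, rfl⟩
      exact hA n)
    rwa [sInter_range] at h5)
  exact h2 x hx

end Pool.Agent.Lib.MP_8c874d_gt
end
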