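import Mathlib

set_option autoImplicit false

/-! Radon spaces. -/

namespace Pool.Agent.Lib.MP_8c874d_gt

/-- Every finite Borel measure on `X` satisfies `μ(B) = sup {μ(K) : K ⊆ B compact}` for all Borel
sets `B`. -/
def IsRadonSpace (X : Type) [TopologicalSpace X] : Prop :=
  ∀ μ : @MeasureTheory.Measure X (borel X), μ Set.univ < ⊤ →
    ∀ B : Set X, @MeasurableSet X (borel X) B →
      μ B = ⨆ (K : Set X) (_ : K ⊆ B ∧ IsCompact K), μ K

end Pool.Agent.Lib.MP_8c874d_gt
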